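import Mathlib
import Pool.Agent.W513.Mod.Ring

/-! Artin-Schreier elements with a simple pole, and the integral closure in the biquadratic
extension. -/

open Polynomial

set_option autoImplicit false

universe u

namespace Pool.Agent.W417.MW

open Pool.Agent.W513.Mod

theorem not_AS {R K₀ : Type u} [CommRing R] [IsDomain R] [IsIntegrallyClosed R]
    [Field K₀] [Algebra R K₀] [IsFractionRing R K₀] (q r : R) (hq : Prime q) (g : K₀) :
    algebraMap R K₀ q * (g ^ 2 + g) ≠ 1 + algebraMap R K₀ (q * r) := by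
  intro h
  have hint : IsIntegral R (algebraMap R K₀ q * g) := by
    refine ⟨X ^ 2 + C q * X - C (q * (1 + q * r)), by monicity!, ?_⟩
    rw [← aeval_def]
    simp only [map_sub, map_add, map_mul, map_pow, aeval_X, aeval_C, map_one]
    rw [map_mul] at h
    linear_combination (algebraMap R K₀ q) * h
  obtain ⟨c, hc⟩ := IsIntegrallyClosed.isIntegral_iff.1 hint
  have hinj := IsFractionRing.injective R K₀
  have e1 : c ^ 2 + q * c = q * (1 + q * r) := by
    apply hinj
    simp only [map_add, map_mul, map_pow, map_one]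
    rw [hc]
    rw [map_mul] at h
    linear_combination (algebraMap R K₀ q) * h
  have h1 : q ∣ c ^ 2 := ⟨1 + q * r - c, by linear_combination e1⟩
  obtain ⟨d, rfl⟩ := hq.dvd_of_dvd_pow h1
  have h2 : q * (q * (d ^ 2 + d - r)) = q * 1 := by linear_combination e1
  have h3 := mul_left_cancel₀ hq.ne_zero h2
  exact hq.not_unit (IsUnit.of_mul_eq_one _ h3)

/-- elements of a quadratic algebra -/
theorem rep {S : Type u} [CommRing S] (g : S[X]) (hg : g.Monic) (hd : g.natDegree = 2)
    (x : AdjoinRoot g) :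
    ∃ a b : S, x = AdjoinRoot.of g a + AdjoinRoot.of g b * AdjoinRoot.root g := by
  rcases subsingleton_or_nontrivial S with hS | hS
  · exfalso
    rw [Subsingleton.elim g 0, natDegree_zero] at hd
    omega
  obtain ⟨p, rfl⟩ := AdjoinRoot.mk_surjective x
  have h1 : AdjoinRoot.mk g p = AdjoinRoot.mk g (p %ₘ g) := by
    rw [AdjoinRoot.mk_eq_mk]
    exact ⟨p /ₘ g, by rw [sub_eq_iff_eq_add, add_comm]; exact (modByMonic_add_div p g).symm⟩
  have h2 : (p %ₘ g).natDegree ≤ 1 := by
    have := natDegree_modByMonic_lt p hg (by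
      intro h
      rw [h, natDegree_one] at hd
      omega)
    omega
  obtain ⟨a, b, hab⟩ := exists_eq_X_add_C_of_natDegree_le_one h2
  refine ⟨b, a, ?_⟩
  rw [h1, hab, map_add, map_mul, AdjoinRoot.mk_X, AdjoinRoot.mk_C, AdjoinRoot.mk_C, add_comm]

theorem monic_quad {S : Type u} [CommRing S] [Nontrivial S] (a b : S) :
    (X ^ 2 + C a * X + C b : S[X]).Monic ∧ (X ^ 2 + C a * X + C b : S[X]).natDegree = 2 := by
  constructor
  · monicity!
  · compute_degree!

theorem monic_quad' {S : Type u} [CommRing S] [Nontrivial S] (b : S) :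
    (X ^ 2 + X + C b : S[X]).Monic ∧ (X ^ 2 + X + C b : S[X]).natDegree = 2 := by
  constructor
  · monicity!
  · compute_degree!

theorem integral_BB {R K₀ L : Type u} [CommRing R] [IsDomain R] [IsIntegrallyClosed R] [CharP R 2]
    [Field K₀] [Algebra R K₀] [IsFractionRing R K₀] [Field L] [Algebra K₀ L] [Algebra R L]
    [IsScalarTower R K₀ L] (q d : R) (hq : Prime q) (a b : L)
    (ha : algebraMap R L q * (a ^ 2 + a) = 1) (hb : b ^ 2 + b = algebraMap R L d)
    (ta tb : L →ₐ[K₀] L) (ta_a : ta a = a + 1) (ta_b : ta b = b) (tb_a : tb a = a)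
    (tb_b : tb b = b + 1)
    (hspan : ∀ z : L, ∃ c : Fin 4 → K₀, z = algebraMap K₀ L (c 0) + algebraMap K₀ L (c 1) * a +
      algebraMap K₀ L (c 2) * b + algebraMap K₀ L (c 3) * (a * b)) :
    ∃ β : BB R q d →ₐ[R] L, β (sB q d) = algebraMap R L q * a ∧ β (vB q d) = b ∧
      Function.Injective β ∧ ∀ z : L, IsIntegral R z → z ∈ Set.range β := by
  have hinj0 : Function.Injective (algebraMap R K₀) := IsFractionRing.injective R K₀
  have hinjL : Function.Injective (algebraMap K₀ L) := (algebraMap K₀ L).injective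
  have hinj : Function.Injective (algebraMap R L) := by
    rw [IsScalarTower.algebraMap_eq R K₀ L]
    exact hinjL.comp hinj0
  have h2R : (2 : R) = 0 := CharTwo.two_eq_zero
  have h2L : (2 : L) = 0 := by
    have := congrArg (algebraMap R L) h2R
    rwa [map_ofNat, map_zero] at this
  have h2K : (2 : K₀) = 0 := by
    have := congrArg (algebraMap R K₀) h2R
    rwa [map_ofNat, map_zero] at this
  have taR : ∀ r : R, ta (algebraMap R L r) = algebraMap R L r := by
    intro r
    rw [IsScalarTower.algebraMap_apply R K₀ L, ta.commutes]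
  have tbR : ∀ r : R, tb (algebraMap R L r) = algebraMap R L r := by
    intro r
    rw [IsScalarTower.algebraMap_apply R K₀ L, tb.commutes]
  have hqL : algebraMap R L q ≠ 0 := by
    intro h
    rw [h, zero_mul] at ha
    exact zero_ne_one ha
  have hqK : algebraMap R K₀ q ≠ 0 := by
    intro h
    apply hqL
    rw [IsScalarTower.algebraMap_apply R K₀ L, h, map_zero]
  -- the map on the first step
  let β1 : B1 R q →ₐ[R] L := AdjoinRoot.liftAlgHom _ (Algebra.ofId R L) (algebraMap R L q * a) (by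
    simp only [eval₂_add, eval₂_mul, eval₂_pow, eval₂_X, eval₂_C]
    change (algebraMap R L q * a) ^ 2 + algebraMap R L q * (algebraMap R L q * a) +
      algebraMap R L q = 0
    linear_combination (algebraMap R L q) * ha + (algebraMap R L q) * h2L)
  have hβ1r : β1 (AdjoinRoot.root _) = algebraMap R L q * a := AdjoinRoot.liftAlgHom_root _ _ _ _
  have hβ1c : ∀ r : R, β1 (AdjoinRoot.of _ r) = algebraMap R L r := fun r => β1.commutes r
  let β : BB R q d →ₐ[R] L := AdjoinRoot.liftAlgHom _ β1 b (by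
    simp only [eval₂_add, eval₂_pow, eval₂_X, eval₂_C]
    change b ^ 2 + b + β1 (algebraMap R (B1 R q) d) = 0
    rw [β1.commutes, hb]
    linear_combination (algebraMap R L d) * h2L)
  have hβr : β (AdjoinRoot.root _) = b := AdjoinRoot.liftAlgHom_root _ _ _ _
  have hβc : ∀ x : B1 R q, β (AdjoinRoot.of _ x) = β1 x := fun x => AdjoinRoot.liftAlgHom_of _ _ _ _ _
  have rep1 : ∀ x : B1 R q, ∃ r s : R, x = AdjoinRoot.of _ r + AdjoinRoot.of _ s *
      AdjoinRoot.root _ := fun x => rep _ (monic_quad q q).1 (monic_quad q q).2 x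
  have hβ1 : Function.Injective β1 := by
    rw [injective_iff_map_eq_zero]
    intro x hx
    obtain ⟨r, s, rfl⟩ := rep1 x
    rw [map_add, map_mul, hβ1r, hβ1c, hβ1c] at hx
    have h1 := congrArg ta hx
    rw [map_add, map_mul, map_mul, taR, taR, taR, ta_a, map_zero] at h1
    have h3 : algebraMap R L s * algebraMap R L q = 0 := by linear_combination h1 - hx
    have h4 : algebraMap R L s = 0 := (mul_eq_zero.1 h3).resolve_right hqL
    have h5 : s = 0 := hinj (by rw [h4, map_zero])
    have h6 : r = 0 := hinj (by rw [map_zero]; rw [h4, zero_mul, add_zero] at hx; exact hx)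
    rw [h5, h6, map_zero, zero_mul, add_zero]
  have hNT : Nontrivial (B1 R q) := by
    refine ⟨0, 1, fun h => ?_⟩
    have := congrArg β1 h
    rw [map_zero, map_one] at this
    exact zero_ne_one this
  have rep2 : ∀ x : BB R q d, ∃ r s : B1 R q, x = AdjoinRoot.of _ r + AdjoinRoot.of _ s *
      AdjoinRoot.root _ := fun x => rep _ (monic_quad' _).1 (monic_quad' _).2 x
  have tbβ : ∀ x : B1 R q, tb (β1 x) = β1 x := by
    intro x
    obtain ⟨r, s, rfl⟩ := rep1 x
    rw [map_add, map_mul, hβ1r, hβ1c, hβ1c, map_add, map_mul, map_mul, tbR, tbR, tbR, tb_a]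
  have hβi : Function.Injective β := by
    rw [injective_iff_map_eq_zero]
    intro x hx
    obtain ⟨r, s, rfl⟩ := rep2 x
    rw [map_add, map_mul, hβr, hβc, hβc] at hx
    have h1 := congrArg tb hx
    rw [map_add, map_mul, tbβ, tbβ, tb_b, map_zero] at h1
    have h3 : β1 s = 0 := by linear_combination h1 - hx
    have h5 : s = 0 := hβ1 (by rw [h3, map_zero])
    have h6 : r = 0 := hβ1 (by rw [map_zero]; rw [h3, zero_mul, add_zero] at hx; exact hx)
    rw [h5, h6, map_zero, zero_mul, add_zero]
  -- integral elements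
  have intK : ∀ x : K₀, IsIntegral R (algebraMap K₀ L x) → ∃ r : R, algebraMap R K₀ r = x := by
    intro x hx
    exact IsIntegrallyClosed.isIntegral_iff.1 ((isIntegral_algebraMap_iff hinjL).1 hx)
  have inta : ∀ x : L, IsIntegral R x → IsIntegral R (ta x) := fun x hx =>
    hx.map (ta.restrictScalars R)
  have intb : ∀ x : L, IsIntegral R x → IsIntegral R (tb x) := fun x hx =>
    hx.map (tb.restrictScalars R)
  have claim1 : ∀ γ δ : K₀, IsIntegral R (algebraMap K₀ L γ + algebraMap K₀ L δ * a) →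
      ∃ x : B1 R q, β1 x = algebraMap K₀ L γ + algebraMap K₀ L δ * a := by
    intro γ δ hc
    have ht := inta _ hc
    have e1 : ta (algebraMap K₀ L γ + algebraMap K₀ L δ * a) =
        algebraMap K₀ L γ + algebraMap K₀ L δ * a + algebraMap K₀ L δ := by
      rw [map_add, map_mul, ta.commutes, ta.commutes, ta_a]
      ring
    obtain ⟨δ0, hδ0⟩ := intK δ (by
      have := ht.sub hc
      rw [e1] at this
      have e2 : algebraMap K₀ L γ + algebraMap K₀ L δ * a + algebraMap K₀ L δ -
          (algebraMap K₀ L γ + algebraMap K₀ L δ * a) = algebraMap K₀ L δ := by ring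
      rwa [e2] at this)
    have hqK' : algebraMap K₀ L (algebraMap R K₀ q) = algebraMap R L q :=
      (IsScalarTower.algebraMap_apply R K₀ L q).symm
    have e3 : algebraMap K₀ L (γ ^ 2 + γ * δ + δ ^ 2 / algebraMap R K₀ q) =
        (algebraMap K₀ L γ + algebraMap K₀ L δ * a) *
          (algebraMap K₀ L γ + algebraMap K₀ L δ * a + algebraMap K₀ L δ) := by
      rw [map_add, map_add, map_mul, map_div₀, map_pow, map_pow, hqK']
      have h7 : (1 : L) / algebraMap R L q = a ^ 2 + a := by
        rw [div_eq_iff hqL, mul_comm]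
        exact ha.symm
      rw [div_eq_mul_one_div, h7]
      linear_combination (-(algebraMap K₀ L γ * algebraMap K₀ L δ * a)) * h2L
    obtain ⟨n, hn⟩ := intK _ (by
      rw [e3, ← e1]
      exact hc.mul ht)
    have e4 : (algebraMap R K₀ q * γ) ^ 2 + algebraMap R K₀ q * δ * (algebraMap R K₀ q * γ) +
        algebraMap R K₀ q * δ ^ 2 = algebraMap R K₀ q ^ 2 * algebraMap R K₀ n := by
      rw [hn]
      field_simp
    obtain ⟨g, hg⟩ : ∃ g : R, algebraMap R K₀ g = algebraMap R K₀ q * γ := by
      apply IsIntegrallyClosed.isIntegral_iff.1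
      refine ⟨X ^ 2 + C (q * δ0) * X + C (q * δ0 ^ 2 - q ^ 2 * n), by monicity!, ?_⟩
      rw [← aeval_def]
      simp only [map_sub, map_add, map_mul, map_pow, aeval_X, aeval_C]
      rw [hδ0]
      linear_combination e4
    have e5 : g ^ 2 + q * δ0 * g + q * δ0 ^ 2 = q ^ 2 * n := by
      apply hinj0
      simp only [map_add, map_mul, map_pow]
      rw [hg, hδ0]
      exact e4
    have h1 : q ∣ g ^ 2 := ⟨q * n - δ0 * g - δ0 ^ 2, by linear_combination e5⟩
    obtain ⟨γ0, rfl⟩ := hq.dvd_of_dvd_pow h1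
    have e6 : algebraMap R K₀ γ0 = γ := by
      rw [map_mul] at hg
      exact mul_left_cancel₀ hqK hg
    have e7 : δ0 ^ 2 = q * (n - γ0 ^ 2 - δ0 * γ0) := by
      have : q * δ0 ^ 2 = q * (q * (n - γ0 ^ 2 - δ0 * γ0)) := by linear_combination e5
      exact mul_left_cancel₀ hq.ne_zero this
    obtain ⟨δ1, rfl⟩ := hq.dvd_of_dvd_pow (Dvd.intro _ e7.symm)
    refine ⟨AdjoinRoot.of _ γ0 + AdjoinRoot.of _ δ1 * AdjoinRoot.root _, ?_⟩
    rw [map_add, map_mul, hβ1r, hβ1c, hβ1c, ← e6, ← hδ0, ← IsScalarTower.algebraMap_apply,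
      ← IsScalarTower.algebraMap_apply, map_mul]
    ring
  refine ⟨β, ?_, hβr, hβi, ?_⟩
  · change β (AdjoinRoot.of _ (AdjoinRoot.root _)) = _
    rw [hβc, hβ1r]
  · intro z hz
    obtain ⟨c, hc⟩ := hspan z
    have e1 : tb z - z = algebraMap K₀ L (c 2) + algebraMap K₀ L (c 3) * a := by
      conv_lhs => rw [hc]
      simp only [map_add, map_mul, tb.commutes, tb_a, tb_b]
      ring
    have h1 : IsIntegral R (algebraMap K₀ L (c 2) + algebraMap K₀ L (c 3) * a) := by
      rw [← e1]
      exact (intb z hz).sub hz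
    obtain ⟨y, hy⟩ := claim1 _ _ h1
    have hbint : IsIntegral R b := by
      refine ⟨X ^ 2 + X - C d, by monicity!, ?_⟩
      rw [← aeval_def]
      simp only [map_sub, map_add, map_pow, aeval_X, aeval_C]
      rw [hb, sub_self]
    have e2 : algebraMap K₀ L (c 0) + algebraMap K₀ L (c 1) * a =
        z - (algebraMap K₀ L (c 2) + algebraMap K₀ L (c 3) * a) * b := by
      conv_rhs => rw [hc]
      ring
    obtain ⟨x, hx⟩ := claim1 (c 0) (c 1) (by
      rw [e2]
      exact hz.sub (h1.mul hbint))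
    refine ⟨AdjoinRoot.of _ x + AdjoinRoot.of _ y * AdjoinRoot.root _, ?_⟩
    rw [map_add, map_mul, hβr, hβc, hβc, hx, hy, e2]
    ring

end Pool.Agent.W417.MW
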