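import Mathlib
import Pool.Agent.W513.Mod.Ring

/-! The exponent of the different: open immersions and affine schemes. -/

open CategoryTheory Limits AlgebraicGeometry Polynomial TensorProduct

set_option backward.isDefEq.respectTransparency false

noncomputable section

universe u

namespace Pool.Agent.W417.MW

open Pool.Agent.W513.Mod

/-- length of the differentials of a ring homomorphism -/
def kl {A B : Type u} [CommRing A] [CommRing B] (f : A →+* B) : ℕ∞ :=
  letI := f.toAlgebra
  Module.length B (Ω[B⁄A])

theorem kl_congr {A B A' B' : Type u} [CommRing A] [CommRing B] [CommRing A'] [CommRing B']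
    (f : A →+* B) (f' : A' →+* B') (eA : A →+* A') (eB : B →+* B') (hA : Function.Bijective eA)
    (hB : Function.Bijective eB) (h : ∀ a, eB (f a) = f' (eA a)) : kl f = kl f' := by
  let _ : Algebra A B := f.toAlgebra
  let _ : Algebra A' B' := f'.toAlgebra
  let _ : Algebra A A' := eA.toAlgebra
  let _ : Algebra B B' := eB.toAlgebra
  let _ : Algebra A B' := (eB.comp f).toAlgebra
  have : IsScalarTower A B B' := IsScalarTower.of_algebraMap_eq fun _ => rfl
  have : IsScalarTower A A' B' := IsScalarTower.of_algebraMap_eq h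
  have : SMulCommClass A' B B' := ⟨fun a b c => by
    simp only [Algebra.smul_def]
    ring⟩
  have i1 : IsLocalization (⊥ : Submonoid A) A' :=
    IsLocalization.of_le_isUnit_of_bijective (by
      rintro _ ⟨a, ha, rfl⟩
      rw [SetLike.mem_coe, Submonoid.mem_bot] at ha
      subst ha
      rw [map_one]
      exact isUnit_one) hA
  have i2 : IsLocalization (Algebra.algebraMapSubmonoid B (⊥ : Submonoid A)) B' :=
    IsLocalization.of_le_isUnit_of_bijective (by
      rintro _ ⟨_, ⟨a, ha, rfl⟩, rfl⟩
      rw [SetLike.mem_coe, Submonoid.mem_bot] at ha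
      subst ha
      rw [map_one, map_one]
      exact isUnit_one) hB
  have i3 := KaehlerDifferential.isLocalizedModule A A' B B' (⊥ : Submonoid A)
  let φ : Ω[B⁄A] →ₗ[B] Ω[B'⁄A'] := KaehlerDifferential.map A A' B B'
  have hφ : Function.Bijective φ := by
    constructor
    · intro x y hxy
      obtain ⟨⟨c, hc⟩, hcxy⟩ := i3.exists_of_eq hxy
      rw [Submonoid.mem_bot] at hc
      subst hc
      have h1 : (1 : A) • x = (1 : A) • y := hcxy
      rwa [one_smul, one_smul] at h1
    · intro y
      obtain ⟨⟨x, ⟨c, hc⟩⟩, hcx⟩ := i3.surj y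
      rw [Submonoid.mem_bot] at hc
      subst hc
      refine ⟨x, ?_⟩
      have h1 : (1 : A) • y = φ x := hcx
      rw [one_smul] at h1
      exact h1.symm
  have h1 : Module.length B (Ω[B⁄A]) = Module.length B (Ω[B'⁄A']) :=
    (LinearEquiv.ofBijective φ hφ).length_eq
  have h2 : Module.length B (Ω[B'⁄A']) = Module.length B' (Ω[B'⁄A']) :=
    Module.length_eq_of_surjective hB.2
  exact h1.trans h2

theorem diffExp_eq_kl {Y X : Scheme.{u}} (π : Y ⟶ X) (y : Y) :
    diffExp π y = kl (π.stalkMap y).hom := rfl

theorem diffExp_of_open {Y X Y' X' : Scheme.{u}} (π : Y ⟶ X) (π' : Y' ⟶ X') (j : Y' ⟶ Y)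
    (w : X' ⟶ X) [IsOpenImmersion j] [IsOpenImmersion w] (h : j ≫ π = π' ≫ w) (y : Y') :
    diffExp π (j y) = diffExp π' y := by
  rw [diffExp_eq_kl, diffExp_eq_kl]
  have h1 := Scheme.Hom.stalkMap_congr_hom _ _ h y
  rw [Scheme.Hom.stalkMap_comp, Scheme.Hom.stalkMap_comp] at h1
  have e1 : IsIso (j.stalkMap y) := inferInstance
  have e2 : IsIso (w.stalkMap (π' y)) := inferInstance
  have e3 : IsIso ((X.presheaf.stalkCongr (.of_eq (show π (j y) = w (π' y) from
    congrArg (fun f : Y' ⟶ X => f y) h))).hom ≫ w.stalkMap (π' y)) := inferInstance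
  refine kl_congr _ _ ((X.presheaf.stalkCongr (.of_eq (show π (j y) = w (π' y) from
    congrArg (fun f : Y' ⟶ X => f y) h))).hom ≫ w.stalkMap (π' y)).hom (j.stalkMap y).hom
    ?_ ?_ ?_
  · exact ((asIso ((X.presheaf.stalkCongr (.of_eq (show π (j y) = w (π' y) from
      congrArg (fun f : Y' ⟶ X => f y) h))).hom ≫
        w.stalkMap (π' y))).commRingCatIsoToRingEquiv).bijective
  · exact ((asIso (j.stalkMap y)).commRingCatIsoToRingEquiv).bijective
  · intro a
    have h2 := congrArg (fun f => f.hom a) h1
    exact h2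

theorem diffExp_Spec {R B : Type u} [CommRing R] [CommRing B] [Algebra R B]
    (p : PrimeSpectrum B) :
    diffExp (Spec.map (CommRingCat.ofHom (algebraMap R B))) p =
      Module.length (Localization.AtPrime p.asIdeal)
        (Localization.AtPrime p.asIdeal ⊗[B] Ω[B⁄R]) := by
  rw [diffExp_eq_kl]
  let f : CommRingCat.of R ⟶ CommRingCat.of B := CommRingCat.ofHom (algebraMap R B)
  let q : PrimeSpectrum R := PrimeSpectrum.comap (algebraMap R B) p
  let Rq := Localization.AtPrime q.asIdeal
  let Bp := Localization.AtPrime p.asIdeal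
  let g : Rq →+* Bp := Localization.localRingHom q.asIdeal p.asIdeal (algebraMap R B) rfl
  have h1 := Scheme.localRingHom_comp_stalkIso f p
  have h2 : kl ((Spec.map f).stalkMap p).hom = kl g := by
    refine kl_congr _ _ (Spec.stalkIso (CommRingCat.of R) q).hom.hom
      (Spec.stalkIso (CommRingCat.of B) p).hom.hom ?_ ?_ ?_
    · exact (Spec.stalkIso (CommRingCat.of R) q).commRingCatIsoToRingEquiv.bijective
    · exact (Spec.stalkIso (CommRingCat.of B) p).commRingCatIsoToRingEquiv.bijective
    · intro a
      have h3 : (Spec.map f).stalkMap p ≫ (Spec.stalkIso (CommRingCat.of B) p).hom =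
          (Spec.stalkIso (CommRingCat.of R) q).hom ≫ CommRingCat.ofHom g := by
        rw [← h1, Category.assoc, Category.assoc, Iso.inv_hom_id, Category.comp_id]
        rfl
      exact congrArg (fun f => f.hom a) h3
  refine h2.trans ?_
  let _ : Algebra Rq Bp := g.toAlgebra
  have : IsScalarTower R Rq Bp := IsScalarTower.of_algebraMap_eq fun r => by
    change algebraMap R Bp r = g (algebraMap R Rq r)
    rw [Localization.localRingHom_to_map, IsScalarTower.algebraMap_apply R B Bp]
  have he : Algebra.FormallyEtale B Bp :=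
    Algebra.FormallyEtale.of_isLocalization p.asIdeal.primeCompl
  have hu : Algebra.FormallyUnramified R Rq :=
    Algebra.FormallyUnramified.of_isLocalization q.asIdeal.primeCompl
  have hs : Subsingleton (Ω[Rq⁄R]) := inferInstance
  let φ : Ω[Bp⁄R] →ₗ[Bp] Ω[Bp⁄Rq] := KaehlerDifferential.map R Rq Bp Bp
  have hφ : Function.Bijective φ := by
    constructor
    · rw [← LinearMap.ker_eq_bot, eq_bot_iff]
      intro x hx
      obtain ⟨y, hy⟩ := (KaehlerDifferential.exact_mapBaseChange_map R Rq Bp x).1 hx
      have : Subsingleton (Bp ⊗[Rq] Ω[Rq⁄R]) := inferInstance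
      rw [Subsingleton.elim y 0, map_zero] at hy
      rw [← hy]
      exact Submodule.zero_mem _
    · exact KaehlerDifferential.map_surjective R Rq Bp
  change Module.length Bp (Ω[Bp⁄Rq]) = Module.length Bp (Bp ⊗[B] Ω[B⁄R])
  rw [← (LinearEquiv.ofBijective φ hφ).length_eq]
  exact (KaehlerDifferential.tensorKaehlerEquivOfFormallyEtale R B Bp).length_eq.symm

end Pool.Agent.W417.MW
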