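import Pool.Agent.W417.MW.ET

/-! The total length of the differentials of `BB R q d` over `q = 0`. -/

open Polynomial TensorProduct

set_option autoImplicit false

noncomputable section

universe u

namespace Pool.Agent.W417.MW

open Pool.Agent.W513.Mod

section abs

variable {R B T : Type u} [CommRing R] [CommRing B] [Algebra R B] [CommRing T] [Algebra B T]
  [Algebra R T] [IsScalarTower R B T]

theorem loc_key (δ : Derivation R B T) (s : B) (p : Ideal B) [p.IsPrime] (q : B)
    (h1 : ∀ b : B, b ∉ p → IsUnit (algebraMap B T b))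
    (h2 : Function.Surjective (algebraMap B T))
    (h3 : δ s = 1)
    (h4 : ∀ x : B, ∃ b : B, KaehlerDifferential.D R B x = b • KaehlerDifferential.D R B s)
    (h5 : q • KaehlerDifferential.D R B s = 0)
    (h6 : ∀ b : B, algebraMap B T b = 0 → ∃ t : B, t ∉ p ∧ t * b ∈ Ideal.span {q}) :
    Module.length (Localization.AtPrime p) (Localization.AtPrime p ⊗[B] Ω[B⁄R]) =
      Module.length T T := by
  let f : Ω[B⁄R] →ₗ[B] T := δ.liftKaehlerDifferential
  have hf : f (KaehlerDifferential.D R B s) = 1 := by
    rw [← h3]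
    exact Derivation.liftKaehlerDifferential_comp_D δ s
  have hgen : ∀ m : Ω[B⁄R], ∃ b : B, m = b • KaehlerDifferential.D R B s := by
    intro m
    have hm : m ∈ Submodule.span B (Set.range (KaehlerDifferential.D R B)) := by
      rw [KaehlerDifferential.span_range_derivation]
      trivial
    have hle : Submodule.span B (Set.range (KaehlerDifferential.D R B)) ≤
        Submodule.span B {KaehlerDifferential.D R B s} := by
      rw [Submodule.span_le]
      rintro _ ⟨x, rfl⟩
      obtain ⟨b, hb⟩ := h4 x
      rw [hb]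
      exact Submodule.smul_mem _ _ (Submodule.mem_span_singleton_self _)
    obtain ⟨b, hb⟩ := Submodule.mem_span_singleton.1 (hle hm)
    exact ⟨b, hb.symm⟩
  have hfb : ∀ b : B, f (b • KaehlerDifferential.D R B s) = algebraMap B T b := by
    intro b
    rw [map_smul, hf, Algebra.smul_def, mul_one]
  have hl : IsLocalizedModule p.primeCompl f := by
    refine ⟨?_, ?_, ?_⟩
    · intro x
      rw [Module.End.isUnit_iff]
      obtain ⟨u, hu⟩ := h1 x.1 x.2
      constructor
      · intro a b hab
        have hab' : algebraMap B T x.1 * a = algebraMap B T x.1 * b := by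
          rw [← Algebra.smul_def, ← Algebra.smul_def]
          exact hab
        rw [← hu] at hab'
        exact (Units.mul_right_inj u).1 hab'
      · intro a
        refine ⟨↑u⁻¹ * a, ?_⟩
        change x.1 • (↑u⁻¹ * a : T) = a
        rw [Algebra.smul_def, ← hu, Units.mul_inv_cancel_left]
    · intro y
      obtain ⟨b, hb⟩ := h2 y
      refine ⟨(b • KaehlerDifferential.D R B s, 1), ?_⟩
      change (1 : p.primeCompl) • y = f (b • KaehlerDifferential.D R B s)
      rw [one_smul, hfb, hb]
    · intro x y hxy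
      obtain ⟨a, ha⟩ := hgen (x - y)
      have h7 : algebraMap B T a = 0 := by
        rw [← hfb, ← ha, map_sub, hxy, sub_self]
      obtain ⟨t, ht, hta⟩ := h6 a h7
      refine ⟨⟨t, ht⟩, ?_⟩
      change t • x = t • y
      rw [← sub_eq_zero, ← smul_sub, ha, smul_smul]
      obtain ⟨w, hw⟩ := Ideal.mem_span_singleton'.1 hta
      rw [← hw, mul_smul, h5, smul_zero]
  let g : Localization.AtPrime p →+* T := IsLocalization.lift (M := p.primeCompl)
    (g := algebraMap B T) (fun y => h1 y.1 y.2)
  let _ : Algebra (Localization.AtPrime p) T := g.toAlgebra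
  have : IsScalarTower B (Localization.AtPrime p) T := IsScalarTower.of_algebraMap_eq fun x =>
    (IsLocalization.lift_eq _ x).symm
  have hb := IsLocalizedModule.isBaseChange p.primeCompl (Localization.AtPrime p) f
  rw [hb.equiv.length_eq]
  refine Module.length_eq_of_surjective ?_
  intro y
  obtain ⟨b, hb⟩ := h2 y
  refine ⟨algebraMap B _ b, ?_⟩
  rw [← IsScalarTower.algebraMap_apply B (Localization.AtPrime p) T, hb]

end abs

theorem length_dn (K : Type u) [Field K] : Module.length (DualNumber K) (DualNumber K) = 2 := by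
  let ph : DualNumber K →+* K := (TrivSqZeroExt.fstHom K K K).toRingHom
  have hph : ∀ t, ph t = t.fst := fun t => rfl
  let _ : Algebra (DualNumber K) K := ph.toAlgebra
  have hK : Module.length (DualNumber K) K = 1 := by
    rw [Module.length_eq_of_surjective (R := K) (S := DualNumber K)
      (fun x => ⟨TrivSqZeroExt.inl x, rfl⟩), Module.length_eq_one_iff]
    infer_instance
  let f : K →ₗ[DualNumber K] DualNumber K :=
    { toFun := fun a => TrivSqZeroExt.inr a
      map_add' := fun a b => TrivSqZeroExt.inr_add K a b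
      map_smul' := fun t a => by
        rw [RingHom.id_apply, Algebra.smul_def, smul_eq_mul]
        change TrivSqZeroExt.inr (t.fst * a) = t * TrivSqZeroExt.inr a
        refine TrivSqZeroExt.ext ?_ ?_
        · simp
        · simp [mul_comm] }
  let g : DualNumber K →ₗ[DualNumber K] K := Algebra.linearMap _ _
  have h := Module.length_eq_add_of_exact f g (fun a b hab => TrivSqZeroExt.inr_injective hab)
    (fun x => ⟨TrivSqZeroExt.inl x, rfl⟩) (by
      intro y
      constructor
      · intro hy
        have hy' : y.fst = 0 := hy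
        refine ⟨y.snd, ?_⟩
        refine TrivSqZeroExt.ext ?_ ?_
        · rw [hy']
          rfl
        · rfl
      · rintro ⟨x, rfl⟩
        rfl)
  rw [h, hK]
  norm_num

theorem ident {B : Type u} [CommRing B] (A0 A1 A2 A3 Q W0 W1 W2 DD s v γ : B)
    (h2B : (2 : B) = 0) (h0 : W0 * Q = A0 + A2 * γ) (h1 : W1 * Q = A1 + A3 * γ)
    (h3 : W2 * Q = γ ^ 2 + γ + DD) (hv : v ^ 2 + v + DD = 0) :
    ((W0 + W1 * s) * (v + γ + 1) + (A2 + A3 * s) * W2) * Q =
      (v + γ + 1) * (A0 + A1 * s + (A2 + A3 * s) * v) := by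
  linear_combination (v + γ + 1) * h0 + (v + γ + 1) * s * h1 + (A2 + A3 * s) * h3 -
    (A2 + A3 * s) * hv + (A2 + A3 * s) * (DD + γ + γ ^ 2) * h2B

theorem ident2 {B : Type u} [CommRing B] (v γ w Q DD : B) (h2B : (2 : B) = 0)
    (h4 : v ^ 2 + v + DD = 0) (hw : w * Q = γ ^ 2 + γ + DD) :
    (v - γ) * (v - (γ + 1)) = w * Q := by
  rw [hw]
  linear_combination h4 + (- v - γ * v - DD) * h2B

theorem ident3 {B : Type u} [CommRing B] (s Q : B) (h : s ^ 2 + Q * s + Q = 0) :
    s ^ 2 = - (s + 1) * Q := by
  linear_combination h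

section th

variable {K : Type u} [Field K] {R : Type u} [CommRing R] [Algebra K R] (q d : R)
  (e : R →ₐ[K] K)

/-- the homomorphism to the dual numbers on the first step -/
def th1 (he : e q = 0) : B1 R q →+* DualNumber K :=
  AdjoinRoot.lift ((algebraMap K (DualNumber K)).comp (e : R →+* K)) DualNumber.eps (by
    simp only [eval₂_add, eval₂_mul, eval₂_pow, eval₂_X, eval₂_C, RingHom.comp_apply,
      RingHom.coe_coe, he, map_zero, zero_mul, add_zero]
    rw [pow_two, DualNumber.eps_mul_eps])

theorem th1_of (he : e q = 0) (r : R) :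
    th1 q e he (algebraMap R (B1 R q) r) = algebraMap K (DualNumber K) (e r) :=
  AdjoinRoot.lift_of _

theorem th1_root (he : e q = 0) : th1 q e he (AdjoinRoot.root _) = DualNumber.eps :=
  AdjoinRoot.lift_root _

/-- the homomorphism to the dual numbers -/
def th (he : e q = 0) (c : K) (hc : c ^ 2 + c + e d = 0) : BB R q d →+* DualNumber K :=
  AdjoinRoot.lift (th1 q e he) (algebraMap K (DualNumber K) c) (by
    simp only [eval₂_add, eval₂_pow, eval₂_X, eval₂_C]
    rw [th1_of, ← map_pow, ← map_add, ← map_add, hc, map_zero])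

variable (he : e q = 0) (c : K) (hc : c ^ 2 + c + e d = 0)

theorem th_of (r : R) :
    th q d e he c hc (algebraMap R (BB R q d) r) = algebraMap K (DualNumber K) (e r) := by
  rw [IsScalarTower.algebraMap_apply R (B1 R q) (BB R q d)]
  exact (AdjoinRoot.lift_of _).trans (th1_of q e he r)

theorem th_s : th q d e he c hc (sB q d) = DualNumber.eps :=
  (AdjoinRoot.lift_of _).trans (th1_root q e he)

theorem th_v : th q d e he c hc (vB q d) = algebraMap K (DualNumber K) c :=
  AdjoinRoot.lift_root _

theorem th_rep (r : Fin 4 → R) : th q d e he c hc (algebraMap R _ (r 0) +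
    algebraMap R _ (r 1) * sB q d + (algebraMap R _ (r 2) + algebraMap R _ (r 3) * sB q d) *
      vB q d) = algebraMap K (DualNumber K) (e (r 0) + e (r 2) * c) +
        algebraMap K (DualNumber K) (e (r 1) + e (r 3) * c) * DualNumber.eps := by
  simp only [map_add, map_mul, th_of, th_s, th_v]
  ring

theorem fst_rep (r : Fin 4 → R) : (th q d e he c hc (algebraMap R _ (r 0) +
    algebraMap R _ (r 1) * sB q d + (algebraMap R _ (r 2) + algebraMap R _ (r 3) * sB q d) *
      vB q d)).fst = e (r 0) + e (r 2) * c := by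
  rw [th_rep]
  simp [TrivSqZeroExt.algebraMap_eq_inl]

theorem snd_rep (r : Fin 4 → R) : (th q d e he c hc (algebraMap R _ (r 0) +
    algebraMap R _ (r 1) * sB q d + (algebraMap R _ (r 2) + algebraMap R _ (r 3) * sB q d) *
      vB q d)).snd = e (r 1) + e (r 3) * c := by
  rw [th_rep]
  simp [TrivSqZeroExt.algebraMap_eq_inl]

theorem th_surj : Function.Surjective (th q d e he c hc) := by
  intro t
  refine ⟨algebraMap R _ (algebraMap K R t.fst) + algebraMap R _ (algebraMap K R t.snd) * sB q d,
    ?_⟩
  rw [map_add, map_mul, th_of, th_of, th_s, AlgHom.commutes, AlgHom.commutes]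
  refine TrivSqZeroExt.ext ?_ ?_
  · simp [TrivSqZeroExt.algebraMap_eq_inl]
  · simp [TrivSqZeroExt.algebraMap_eq_inl]

/-- the prime ideal -/
def pc : Ideal (BB R q d) :=
  RingHom.ker (((TrivSqZeroExt.fstHom K K K).toRingHom).comp (th q d e he c hc))

theorem mem_pc (x : BB R q d) : x ∈ pc q d e he c hc ↔ (th q d e he c hc x).fst = 0 := Iff.rfl

instance pc_max : (pc q d e he c hc).IsMaximal := by
  refine RingHom.ker_isMaximal_of_surjective _ ?_
  intro x
  obtain ⟨b, hb⟩ := th_surj q d e he c hc (TrivSqZeroExt.inl x)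
  refine ⟨b, ?_⟩
  rw [RingHom.comp_apply, hb]
  rfl

theorem q_mem_pc : algebraMap R (BB R q d) q ∈ pc q d e he c hc := by
  rw [mem_pc, th_of, he, map_zero]
  rfl

theorem kill (h2 : (2 : R) = 0) (hke : RingHom.ker e = Ideal.span {q}) (b : BB R q d)
    (hb : th q d e he c hc b = 0) :
    ∃ t : BB R q d, t ∉ pc q d e he c hc ∧
      t * b ∈ Ideal.span {algebraMap R (BB R q d) q} := by
  obtain ⟨r, rfl⟩ := rep4 q d b
  have h2K : (2 : K) = 0 := by
    have := congrArg e h2
    rwa [map_ofNat, map_zero] at this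
  have h2B : (2 : BB R q d) = 0 := by
    have := congrArg (algebraMap R (BB R q d)) h2
    rwa [map_ofNat, map_zero] at this
  have e0 := fst_rep q d e he c hc r
  have e1 := snd_rep q d e he c hc r
  rw [hb] at e0 e1
  have hk : ∀ x : R, e x = 0 → ∃ w, w * q = x := by
    intro x hx
    have : x ∈ RingHom.ker e := hx
    rw [hke] at this
    exact Ideal.mem_span_singleton'.1 this
  obtain ⟨w0, h0⟩ := hk (r 0 + r 2 * algebraMap K R c) (by
    rw [map_add, map_mul, AlgHom.commutes]
    exact e0.symm)
  obtain ⟨w1, h1⟩ := hk (r 1 + r 3 * algebraMap K R c) (by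
    rw [map_add, map_mul, AlgHom.commutes]
    exact e1.symm)
  obtain ⟨w2, h3⟩ := hk ((algebraMap K R c) ^ 2 + algebraMap K R c + d) (by
    rw [map_add, map_add, map_pow, AlgHom.commutes]
    exact hc)
  have h0' := congrArg (algebraMap R (BB R q d)) h0
  have h1' := congrArg (algebraMap R (BB R q d)) h1
  have h3' := congrArg (algebraMap R (BB R q d)) h3
  simp only [map_add, map_mul, map_pow] at h0' h1' h3'
  refine ⟨vB q d + algebraMap R _ (algebraMap K R c) + 1, ?_, ?_⟩
  · rw [mem_pc, map_add, map_add, th_v, th_of, map_one, AlgHom.commutes]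
    have : ((algebraMap K (DualNumber K) c + algebraMap K (DualNumber K) c + 1 :
        DualNumber K)).fst = 1 := by
      have : (algebraMap K (DualNumber K) c + algebraMap K (DualNumber K) c + 1 :
        DualNumber K) = algebraMap K (DualNumber K) (2 * c + 1) := by
        rw [two_mul, map_add, map_add, map_one]
      rw [this, h2K, zero_mul, zero_add, map_one]
      rfl
    rw [show algebraMap K K c = c from rfl, this]
    exact one_ne_zero
  · rw [Ideal.mem_span_singleton']
    have hv := rel_v q d
    exact ⟨_, ident _ _ _ _ _ _ _ _ _ _ _ _ h2B h0' h1' h3' hv⟩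

theorem len_pc (h2 : (2 : R) = 0) (hke : RingHom.ker e = Ideal.span {q}) :
    Module.length (Localization.AtPrime (pc q d e he c hc))
      (Localization.AtPrime (pc q d e he c hc) ⊗[BB R q d] Ω[BB R q d⁄R]) = 2 := by
  let _ : Algebra (BB R q d) (DualNumber K) := (th q d e he c hc).toAlgebra
  let _ : Algebra R (DualNumber K) :=
    ((th q d e he c hc).comp (algebraMap R (BB R q d))).toAlgebra
  have : IsScalarTower R (BB R q d) (DualNumber K) := IsScalarTower.of_algebraMap_eq fun _ => rfl
  have hR : ∀ r : R, algebraMap R (DualNumber K) r = algebraMap K (DualNumber K) (e r) :=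
    fun r => th_of q d e he c hc r
  have h2K : (2 : K) = 0 := by
    have := congrArg e h2
    rwa [map_ofNat, map_zero] at this
  have h2B : (2 : BB R q d) = 0 := by
    have := congrArg (algebraMap R (BB R q d)) h2
    rwa [map_ofNat, map_zero] at this
  let l : BB R q d →ₗ[R] DualNumber K :=
    { toFun := fun x => TrivSqZeroExt.inl (th q d e he c hc x).snd
      map_add' := fun x y => by
        rw [map_add, TrivSqZeroExt.snd_add, TrivSqZeroExt.inl_add]
      map_smul' := fun r x => by
        rw [RingHom.id_apply, Algebra.smul_def, Algebra.smul_def, map_mul, th_of, hR]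
        refine TrivSqZeroExt.ext ?_ ?_
        · simp [TrivSqZeroExt.algebraMap_eq_inl]
        · simp [TrivSqZeroExt.algebraMap_eq_inl] }
  let δ : Derivation R (BB R q d) (DualNumber K) := Derivation.mk' l (by
    intro a b
    change TrivSqZeroExt.inl (th q d e he c hc (a * b)).snd =
      a • (TrivSqZeroExt.inl (th q d e he c hc b).snd : DualNumber K) +
        b • (TrivSqZeroExt.inl (th q d e he c hc a).snd : DualNumber K)
    rw [Algebra.smul_def, Algebra.smul_def, map_mul]
    change TrivSqZeroExt.inl (th q d e he c hc a * th q d e he c hc b).snd =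
      th q d e he c hc a * (TrivSqZeroExt.inl (th q d e he c hc b).snd : DualNumber K) +
        th q d e he c hc b * (TrivSqZeroExt.inl (th q d e he c hc a).snd : DualNumber K)
    refine TrivSqZeroExt.ext ?_ ?_
    · simp
      ring
    · simp
      linear_combination (-(th q d e he c hc a).snd * (th q d e he c hc b).snd) * h2K)
  have hδ : ∀ x, δ x = TrivSqZeroExt.inl (th q d e he c hc x).snd := fun _ => rfl
  have hDs := der_s (A := BB R q d) q d h2B (KaehlerDifferential.D R (BB R q d))
  have hDv := der_v (A := BB R q d) q d h2B (KaehlerDifferential.D R (BB R q d))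
  refine (loc_key δ (sB q d) (pc q d e he c hc) (algebraMap R (BB R q d) q) ?_ ?_ ?_ ?_ ?_
    ?_).trans (length_dn K)
  · intro b hb
    rw [mem_pc] at hb
    exact TrivSqZeroExt.isUnit_iff_isUnit_fst.2 (isUnit_iff_ne_zero.2 hb)
  · exact th_surj q d e he c hc
  · rw [hδ, th_s]
    rfl
  · intro x
    obtain ⟨r, rfl⟩ := rep4 q d x
    refine ⟨algebraMap R _ (r 1) + algebraMap R _ (r 3) * vB q d, ?_⟩
    have hDv' : KaehlerDifferential.D R (BB R q d) (vB q d) = 0 := hDv
    simp only [map_add, Derivation.leibniz, Derivation.map_algebraMap, hDv', smul_zero, add_zero,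
      zero_add, add_smul, mul_smul]
    rw [smul_comm]
  · exact hDs
  · intro b hb
    exact kill q d e he c hc h2 hke b hb

theorem le_of_mem (hke : RingHom.ker e = Ideal.span {q}) (p : Ideal (BB R q d))
    (hq : algebraMap R (BB R q d) q ∈ p) (hs : sB q d ∈ p)
    (hv : vB q d - algebraMap R (BB R q d) (algebraMap K R c) ∈ p) :
    pc q d e he c hc ≤ p := by
  intro b hb
  obtain ⟨r, rfl⟩ := rep4 q d b
  rw [mem_pc, fst_rep] at hb
  have hk : ∀ x : R, e x = 0 → ∃ w, w * q = x := by
    intro x hx
    have : x ∈ RingHom.ker e := hx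
    rw [hke] at this
    exact Ideal.mem_span_singleton'.1 this
  obtain ⟨w0, h0⟩ := hk (r 0 + r 2 * algebraMap K R c) (by
    rw [map_add, map_mul, AlgHom.commutes]
    exact hb)
  have h0' := congrArg (algebraMap R (BB R q d)) h0
  simp only [map_add, map_mul] at h0'
  have : (algebraMap R (BB R q d) (r 0) + algebraMap R (BB R q d) (r 1) * sB q d +
      (algebraMap R (BB R q d) (r 2) + algebraMap R (BB R q d) (r 3) * sB q d) * vB q d) =
      algebraMap R (BB R q d) w0 * algebraMap R (BB R q d) q +
      (algebraMap R (BB R q d) (r 1) + algebraMap R (BB R q d) (r 3) * vB q d) * sB q d +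
      algebraMap R (BB R q d) (r 2) *
        (vB q d - algebraMap R (BB R q d) (algebraMap K R c)) := by
    rw [h0']
    ring
  rw [this]
  exact p.add_mem (p.add_mem (p.mul_mem_left _ hq) (p.mul_mem_left _ hs)) (p.mul_mem_left _ hv)

theorem s_mem (p : Ideal (BB R q d)) [hp : p.IsPrime] (hq : algebraMap R (BB R q d) q ∈ p) :
    sB q d ∈ p := by
  refine hp.mem_of_pow_mem 2 ?_
  rw [ident3 _ _ (rel_s q d)]
  exact p.mul_mem_left _ hq

include hc in
theorem v_mem (h2B : (2 : BB R q d) = 0) (hke : RingHom.ker e = Ideal.span {q})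
    (p : Ideal (BB R q d)) (hq : algebraMap R (BB R q d) q ∈ p) :
    (vB q d - algebraMap R (BB R q d) (algebraMap K R c)) *
      (vB q d - algebraMap R (BB R q d) (algebraMap K R (c + 1))) ∈ p := by
  have h3 : (algebraMap K R c) ^ 2 + algebraMap K R c + d ∈ RingHom.ker e := by
    rw [RingHom.mem_ker, map_add, map_add, map_pow, AlgHom.commutes]
    exact hc
  rw [hke] at h3
  obtain ⟨w, hw⟩ := Ideal.mem_span_singleton'.1 h3
  have hw' : algebraMap R (BB R q d) w * algebraMap R (BB R q d) q =
      (algebraMap R (BB R q d) (algebraMap K R c)) ^ 2 +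
        algebraMap R (BB R q d) (algebraMap K R c) + algebraMap R (BB R q d) d := by
    rw [← map_mul, hw, map_add, map_add, map_pow]
  have hγ : algebraMap R (BB R q d) (algebraMap K R (c + 1)) =
      algebraMap R (BB R q d) (algebraMap K R c) + 1 := by
    rw [map_add, map_one, map_add, map_one]
  have h5 := ident2 _ _ _ _ _ h2B (rel_v q d) hw'
  rw [← hγ] at h5
  exact h5.symm ▸ p.mul_mem_left _ hq

theorem pc_ne (he : e q = 0) (c : K) (hc : c ^ 2 + c + e d = 0)
    (hc' : (c + 1) ^ 2 + (c + 1) + e d = 0) :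
    pc q d e he c hc ≠ pc q d e he (c + 1) hc' := by
  intro h3
  have h1 : vB q d - algebraMap R (BB R q d) (algebraMap K R c) ∈ pc q d e he c hc := by
    rw [mem_pc, map_sub, th_v, th_of, AlgHom.commutes]
    simp
  rw [h3, mem_pc, map_sub, th_v, th_of, AlgHom.commutes] at h1
  simp at h1

theorem mem_iff (h2B : (2 : BB R q d) = 0) (hke : RingHom.ker e = Ideal.span {q})
    (he : e q = 0) (c : K) (hc : c ^ 2 + c + e d = 0)
    (hc' : (c + 1) ^ 2 + (c + 1) + e d = 0) (p : Ideal (BB R q d)) [hp : p.IsPrime] :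
    algebraMap R (BB R q d) q ∈ p ↔ (p = pc q d e he c hc ∨ p = pc q d e he (c + 1) hc') := by
  constructor
  · intro hq
    rcases hp.mem_or_mem (v_mem q d e c hc h2B hke p hq) with h | h
    · exact Or.inl ((pc_max q d e he c hc).eq_of_le hp.ne_top
        (le_of_mem q d e he c hc hke p hq (s_mem q d p hq) h)).symm
    · exact Or.inr ((pc_max q d e he (c + 1) hc').eq_of_le hp.ne_top
        (le_of_mem q d e he (c + 1) hc' hke p hq (s_mem q d p hq) h)).symm
  · rintro (rfl | rfl)
    · exact q_mem_pc q d e he c hc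
    · exact q_mem_pc q d e he (c + 1) hc'

end th

/-- a finite sum over primes -/
theorem sum_two {B : Type u} [CommRing B] (Q : B) (I J : Ideal B) [hI : I.IsPrime]
    [hJ : J.IsPrime] (hIJ : I ≠ J) (h : ∀ (p : Ideal B) [p.IsPrime], Q ∈ p ↔ (p = I ∨ p = J))
    (M : Type u) [AddCommGroup M] [Module B M]
    (l1 : Module.length (Localization.AtPrime I) (Localization.AtPrime I ⊗[B] M) = 2)
    (l2 : Module.length (Localization.AtPrime J) (Localization.AtPrime J ⊗[B] M) = 2) :
    ∑ᶠ (p : PrimeSpectrum B) (_ : Q ∈ p.asIdeal),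
      Module.length (Localization.AtPrime p.asIdeal)
        (Localization.AtPrime p.asIdeal ⊗[B] M) = 4 := by
  let P1 : PrimeSpectrum B := ⟨I, hI⟩
  let P2 : PrimeSpectrum B := ⟨J, hJ⟩
  have hne : P1 ≠ P2 := fun h => hIJ (congrArg PrimeSpectrum.asIdeal h)
  have hset : ∀ p : PrimeSpectrum B, Q ∈ p.asIdeal ↔
      p ∈ ({P1, P2} : Set (PrimeSpectrum B)) := by
    intro p
    rw [h p.asIdeal]
    constructor
    · rintro (h1 | h1)
      · exact Or.inl (PrimeSpectrum.ext h1)
      · exact Or.inr (PrimeSpectrum.ext h1)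
    · rintro (h1 | h1)
      · exact Or.inl (congrArg PrimeSpectrum.asIdeal h1)
      · exact Or.inr (congrArg PrimeSpectrum.asIdeal h1)
  have hfs : ∑ᶠ (p : PrimeSpectrum B) (_ : Q ∈ p.asIdeal),
      Module.length (Localization.AtPrime p.asIdeal)
        (Localization.AtPrime p.asIdeal ⊗[B] M) =
      ∑ᶠ (p : PrimeSpectrum B) (_ : p ∈ ({P1, P2} : Set (PrimeSpectrum B))),
      Module.length (Localization.AtPrime p.asIdeal)
        (Localization.AtPrime p.asIdeal ⊗[B] M) := by
    refine finsum_congr fun p => ?_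
    rw [hset p]
  rw [hfs, finsum_mem_pair hne]
  change Module.length (Localization.AtPrime I) (Localization.AtPrime I ⊗[B] M) +
      Module.length (Localization.AtPrime J) (Localization.AtPrime J ⊗[B] M) = 4
  rw [l1, l2]
  norm_num

theorem exists_c {K : Type u} [Field K] [IsAlgClosed K] (a : K) : ∃ c : K, c ^ 2 + c + a = 0 := by
  have hdeg : (X ^ 2 + X + C a : K[X]).degree ≠ 0 := by
    rw [show (X ^ 2 + X + C a : K[X]) = C 1 * X ^ 2 + C 1 * X + C a by simp,
      degree_quadratic one_ne_zero]
    norm_num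
  obtain ⟨c, hc⟩ := IsAlgClosed.exists_root _ hdeg
  refine ⟨c, ?_⟩
  simpa using hc

theorem length_BB {K : Type u} [Field K] [IsAlgClosed K] [CharP K 2] {R : Type u} [CommRing R]
    [Algebra K R] (q d : R) (e : R →ₐ[K] K) (he : RingHom.ker e = Ideal.span {q})
    (_hq : q ∈ nonZeroDivisors R) :
    ∑ᶠ (p : PrimeSpectrum (BB R q d)) (_ : algebraMap R _ q ∈ p.asIdeal),
      Module.length (Localization.AtPrime p.asIdeal)
        (Localization.AtPrime p.asIdeal ⊗[BB R q d] Ω[BB R q d⁄R]) = 4 := by
  have h2K : (2 : K) = 0 := CharTwo.two_eq_zero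
  have h2 : (2 : R) = 0 := two_A (R := K)
  have h2B : (2 : BB R q d) = 0 := by
    have := congrArg (algebraMap R (BB R q d)) h2
    rwa [map_ofNat, map_zero] at this
  have heq : e q = 0 := by
    have : q ∈ RingHom.ker e := by
      rw [he]
      exact Ideal.mem_span_singleton_self q
    exact this
  obtain ⟨c, hc⟩ := exists_c (e d)
  have hc' : (c + 1) ^ 2 + (c + 1) + e d = 0 := by
    linear_combination hc + (c + 1) * h2K
  exact sum_two (algebraMap R (BB R q d) q) (pc q d e heq c hc) (pc q d e heq (c + 1) hc')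
    (pc_ne q d e heq c hc hc') (fun p _ => mem_iff q d e h2B he heq c hc hc' p) (Ω[BB R q d⁄R])
    (len_pc q d e heq c hc h2 he) (len_pc q d e heq (c + 1) hc' h2 he)

end Pool.Agent.W417.MW
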