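import Pool.Agent.W417.MW.AS

/-! The ring `BB R q d` is etale over `R` outside of `q = 0`. -/

open Polynomial TensorProduct

set_option autoImplicit false

noncomputable section

universe u

namespace Pool.Agent.W417.MW

open Pool.Agent.W513.Mod

/-- elements of a quadratic algebra -/
theorem repq {S : Type u} [CommRing S] (a b : S) (x : AdjoinRoot (X ^ 2 + C a * X + C b : S[X])) :
    ∃ u v : S, x = AdjoinRoot.of _ u + AdjoinRoot.of _ v * AdjoinRoot.root _ := by
  rcases subsingleton_or_nontrivial S with hS | hS
  · refine ⟨0, 0, ?_⟩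
    obtain ⟨p, rfl⟩ := AdjoinRoot.mk_surjective x
    rw [Subsingleton.elim p 0]
    simp
  · exact rep _ (monic_quad a b).1 (monic_quad a b).2 x

theorem repq' {S : Type u} [CommRing S] (b : S) (x : AdjoinRoot (X ^ 2 + X + C b : S[X])) :
    ∃ u v : S, x = AdjoinRoot.of _ u + AdjoinRoot.of _ v * AdjoinRoot.root _ := by
  rcases subsingleton_or_nontrivial S with hS | hS
  · refine ⟨0, 0, ?_⟩
    obtain ⟨p, rfl⟩ := AdjoinRoot.mk_surjective x
    rw [Subsingleton.elim p 0]
    simp
  · exact rep _ (monic_quad' b).1 (monic_quad' b).2 x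

variable {R : Type u} [CommRing R] (q d : R)

theorem rel_s : sB q d ^ 2 + algebraMap R (BB R q d) q * sB q d + algebraMap R (BB R q d) q = 0 := by
  have h : eval₂ (AdjoinRoot.of _) (AdjoinRoot.root _) (X ^ 2 + C q * X + C q : R[X]) = 0 :=
    AdjoinRoot.eval₂_root _
  simp only [eval₂_add, eval₂_mul, eval₂_pow, eval₂_X, eval₂_C] at h
  have h2 := congrArg (algebraMap (B1 R q) (BB R q d)) h
  rw [map_add, map_add, map_mul, map_pow, map_zero] at h2
  exact h2

theorem rel_v : vB q d ^ 2 + vB q d + algebraMap R (BB R q d) d = 0 := by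
  have h : eval₂ (AdjoinRoot.of _) (AdjoinRoot.root _)
      (X ^ 2 + X + C (algebraMap R (B1 R q) d) : (B1 R q)[X]) = 0 :=
    AdjoinRoot.eval₂_root _
  simp only [eval₂_add, eval₂_pow, eval₂_X, eval₂_C] at h
  exact h

theorem rep4 (x : BB R q d) : ∃ r : Fin 4 → R, x = algebraMap R _ (r 0) +
    algebraMap R _ (r 1) * sB q d + (algebraMap R _ (r 2) + algebraMap R _ (r 3) * sB q d) *
      vB q d := by
  obtain ⟨a, b, hx⟩ := repq' _ x
  obtain ⟨a0, a1, ha⟩ := repq _ _ a
  obtain ⟨b0, b1, hb⟩ := repq _ _ b
  refine ⟨![a0, a1, b0, b1], ?_⟩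
  rw [hx, ha, hb]
  simp only [Matrix.cons_val, map_add, map_mul]
  rfl

/-- a derivation which kills `s` and `v` is zero -/
theorem der_eq_zero {A : Type u} [CommRing A] [Algebra R A] [Algebra (BB R q d) A]
    [IsScalarTower R (BB R q d) A] {M : Type u} [AddCommGroup M] [Module A M] [Module R M]
    (D : Derivation R A M) (hs : D (algebraMap _ A (sB q d)) = 0)
    (hv : D (algebraMap _ A (vB q d)) = 0) (x : BB R q d) : D (algebraMap _ A x) = 0 := by
  obtain ⟨r, rfl⟩ := rep4 q d x
  simp only [map_add, map_mul, ← IsScalarTower.algebraMap_apply R (BB R q d) A,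
    Derivation.leibniz, Derivation.map_algebraMap, hs, hv, smul_zero, add_zero]

theorem rel_s' {A : Type u} [CommRing A] [Algebra R A] [Algebra (BB R q d) A]
    [IsScalarTower R (BB R q d) A] : (algebraMap _ A (sB q d)) ^ 2 +
      algebraMap R A q * algebraMap _ A (sB q d) + algebraMap R A q = 0 := by
  have h := congrArg (algebraMap (BB R q d) A) (rel_s q d)
  rwa [map_add, map_add, map_mul, map_pow, map_zero,
    ← IsScalarTower.algebraMap_apply R (BB R q d) A] at h

theorem rel_v' {A : Type u} [CommRing A] [Algebra R A] [Algebra (BB R q d) A]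
    [IsScalarTower R (BB R q d) A] : (algebraMap _ A (vB q d)) ^ 2 +
      algebraMap _ A (vB q d) + algebraMap R A d = 0 := by
  have h := congrArg (algebraMap (BB R q d) A) (rel_v q d)
  rwa [map_add, map_add, map_pow, map_zero,
    ← IsScalarTower.algebraMap_apply R (BB R q d) A] at h

theorem der_sq {A : Type u} [CommRing A] [Algebra R A] (h2A : (2 : A) = 0) {M : Type u}
    [AddCommGroup M] [Module A M] [Module R M] (D : Derivation R A M) (x : A) :
    D (x ^ 2) = 0 := by
  rw [Derivation.leibniz_pow, ← Nat.cast_smul_eq_nsmul A, Nat.cast_ofNat, h2A, zero_smul]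

theorem der_v {A : Type u} [CommRing A] [Algebra R A] [Algebra (BB R q d) A]
    [IsScalarTower R (BB R q d) A] (h2A : (2 : A) = 0) {M : Type u}
    [AddCommGroup M] [Module A M] [Module R M] (D : Derivation R A M) :
    D (algebraMap _ A (vB q d)) = 0 := by
  have h := congrArg D (rel_v' (A := A) q d)
  rwa [map_add, map_add, der_sq h2A, Derivation.map_algebraMap, map_zero, zero_add,
    add_zero] at h

theorem der_s {A : Type u} [CommRing A] [Algebra R A] [Algebra (BB R q d) A]
    [IsScalarTower R (BB R q d) A] (h2A : (2 : A) = 0) {M : Type u}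
    [AddCommGroup M] [Module A M] [Module R M] (D : Derivation R A M) :
    algebraMap R A q • D (algebraMap _ A (sB q d)) = 0 := by
  have h := congrArg D (rel_s' (A := A) q d)
  rwa [map_add, map_add, Derivation.leibniz, der_sq h2A, Derivation.map_algebraMap, map_zero,
    smul_zero, add_zero, zero_add, add_zero] at h

theorem unr_A {A : Type u} [CommRing A] [Algebra R A] [Algebra (BB R q d) A]
    [IsScalarTower R (BB R q d) A] (h2A : (2 : A) = 0)
    [IsLocalization.Away (algebraMap R (BB R q d) q) A] : Algebra.FormallyUnramified R A := by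
  have hq : IsUnit (algebraMap R A q) := by
    rw [IsScalarTower.algebraMap_apply R (BB R q d) A]
    exact IsLocalization.Away.algebraMap_isUnit _
  have hs : KaehlerDifferential.D R A (algebraMap _ A (sB q d)) = 0 := by
    have h := der_s q d h2A (KaehlerDifferential.D R A)
    obtain ⟨v, hv⟩ := hq
    have h4 : (↑v⁻¹ : A) • (algebraMap R A q) •
        KaehlerDifferential.D R A (algebraMap _ A (sB q d)) = 0 := by
      rw [h, smul_zero]
    rwa [smul_smul, ← hv, Units.inv_mul, one_smul] at h4
  have hv : KaehlerDifferential.D R A (algebraMap _ A (vB q d)) = 0 :=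
    der_v q d h2A (KaehlerDifferential.D R A)
  have hD : ∀ x : A, KaehlerDifferential.D R A x = 0 := by
    intro x
    obtain ⟨p, s, rfl⟩ := IsLocalization.exists_mk'_eq
      (Submonoid.powers (algebraMap R (BB R q d) q)) x
    have h2 := congrArg (KaehlerDifferential.D R A) (IsLocalization.mk'_spec A p s)
    rw [Derivation.leibniz, der_eq_zero q d _ hs hv, der_eq_zero q d _ hs hv, smul_zero,
      zero_add] at h2
    have h3 : IsUnit (algebraMap (BB R q d) A s) := IsLocalization.map_units A s
    obtain ⟨v, hv⟩ := h3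
    have h4 : (↑v⁻¹ : A) • (algebraMap (BB R q d) A s) •
        KaehlerDifferential.D R A (IsLocalization.mk' A p s) = 0 := by
      rw [h2, smul_zero]
    rwa [smul_smul, ← hv, Units.inv_mul, one_smul] at h4
  refine ⟨?_⟩
  rw [← Submodule.subsingleton_iff A]
  refine subsingleton_of_bot_eq_top ?_
  rw [← KaehlerDifferential.span_range_derivation R A, eq_comm, Submodule.span_eq_bot]
  rintro _ ⟨x, rfl⟩
  exact hD x

theorem flat_BB : Module.Flat R (BB R q d) := by
  rcases subsingleton_or_nontrivial R with h | h
  · have : Module.Free R (BB R q d) := Module.Free.of_subsingleton' _ _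
    infer_instance
  · have f1 : Module.Free R (B1 R q) := (monic_quad q q).1.free_adjoinRoot
    have f2 : Module.Free (B1 R q) (BB R q d) := by
      rcases subsingleton_or_nontrivial (B1 R q) with h | h
      · exact Module.Free.of_subsingleton' _ _
      · exact (monic_quad' _).1.free_adjoinRoot
    exact Module.Flat.trans R (B1 R q) (BB R q d)

theorem etale_A {A : Type u} [CommRing A] [Algebra R A] [Algebra (BB R q d) A]
    [IsScalarTower R (BB R q d) A] (h2A : (2 : A) = 0)
    [IsLocalization.Away (algebraMap R (BB R q d) q) A] : Algebra.Etale R A := by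
  have f3 : Module.Flat R (BB R q d) := flat_BB q d
  have f4 : Module.Flat (BB R q d) A :=
    IsLocalization.flat A (Submonoid.powers (algebraMap R (BB R q d) q))
  have f5 : Module.Flat R A := Module.Flat.trans R (BB R q d) A
  have p1 : Algebra.FinitePresentation R (BB R q d) :=
    Algebra.FinitePresentation.trans R (B1 R q) (BB R q d)
  have p2 : Algebra.FinitePresentation (BB R q d) A :=
    IsLocalization.Away.finitePresentation (algebraMap R (BB R q d) q)
  have p3 : Algebra.FinitePresentation R A := Algebra.FinitePresentation.trans R (BB R q d) A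
  have hun : Algebra.FormallyUnramified R A := unr_A q d h2A
  exact Algebra.Etale.of_formallyUnramified_of_flat

theorem two_A {R A : Type u} [CommRing R] [CharP R 2] [CommRing A] [Algebra R A] :
    (2 : A) = 0 := by
  have h2R : (2 : R) = 0 := CharTwo.two_eq_zero
  have := congrArg (algebraMap R A) h2R
  rwa [map_ofNat, map_zero] at this

theorem etale_BB {R : Type u} [CommRing R] [CharP R 2] (q d : R) :
    Algebra.Etale R (Localization.Away (algebraMap R (BB R q d) q)) :=
  etale_A q d (two_A (R := R))

end Pool.Agent.W417.MW
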