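import Pool.Agent.W417.MW.L

/-! Facts about the ring `RR K`. -/

open Polynomial

set_option autoImplicit false

universe u

namespace Pool.Agent.W417.MW

open Pool.Agent.W513.Mod

section

variable {K : Type u} [Field K]

theorem pow_le_nzd : Submonoid.powers (X + 1 : K[X]) ≤ nonZeroDivisors K[X] := by
  apply powers_le_nonZeroDivisors_of_noZeroDivisors
  have := (monic_X_add_C (1 : K)).ne_zero
  rwa [C_1] at this

theorem dom : IsDomain (RR K) := IsLocalization.isDomain_localization pow_le_nzd

theorem noeth : IsNoetherianRing (RR K) :=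
  IsLocalization.isNoetherianRing (Submonoid.powers (X + 1 : K[X])) (RR K) inferInstance

theorem intcl : IsIntegrallyClosed (RR K) :=
  isIntegrallyClosed_of_isLocalization (R := K[X]) (RR K) (Submonoid.powers (X + 1 : K[X]))
    pow_le_nzd

theorem uw : (uR K + 1) * wR K = 1 := by
  have h := IsLocalization.Away.mul_invSelf (S := RR K) (X + 1 : K[X])
  rw [map_add, map_one] at h
  exact h

theorem exists_ev (c : K) (hc : c + 1 ≠ 0) : ∃ e : RR K →ₐ[K] K, e (uR K) = c := by
  have hf : ∀ y : Submonoid.powers (X + 1 : K[X]), IsUnit ((aeval c : K[X] →ₐ[K] K) y) := by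
    rintro ⟨_, n, rfl⟩
    rw [map_pow]
    refine IsUnit.pow _ ?_
    rw [map_add, aeval_X, map_one]
    exact isUnit_iff_ne_zero.2 hc
  refine ⟨IsLocalization.liftAlgHom (M := Submonoid.powers (X + 1 : K[X])) hf, ?_⟩
  rw [IsLocalization.liftAlgHom_apply, uR, IsLocalization.lift_eq]
  exact aeval_X c

theorem ev_alg (e : RR K →ₐ[K] K) (p : K[X]) :
    e (algebraMap K[X] (RR K) p) = p.eval (e (uR K)) := by
  have h : e.comp (IsScalarTower.toAlgHom K K[X] (RR K)) = (aeval (e (uR K)) : K[X] →ₐ[K] K) := by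
    apply Polynomial.algHom_ext
    rw [aeval_X]
    rfl
  have := DFunLike.congr_fun h p
  rw [coe_aeval_eq_eval] at this
  exact this

theorem ev_uniq (e e' : RR K →ₐ[K] K) (h : e (uR K) = e' (uR K)) : e = e' := by
  apply AlgHom.coe_ringHom_injective
  apply IsLocalization.ringHom_ext (Submonoid.powers (X + 1 : K[X]))
  refine RingHom.ext fun p => ?_
  change e (algebraMap K[X] (RR K) p) = e' (algebraMap K[X] (RR K) p)
  rw [ev_alg, ev_alg, h]

theorem inj_alg : Function.Injective (algebraMap K[X] (RR K)) :=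
  IsLocalization.injective (RR K) pow_le_nzd

theorem ker_ev (e : RR K →ₐ[K] K) (he : e (uR K) = 0) : RingHom.ker e = Ideal.span {uR K} := by
  apply le_antisymm
  · intro a ha
    obtain ⟨p, s, rfl⟩ := IsLocalization.exists_mk'_eq (Submonoid.powers (X + 1 : K[X])) a
    have h1 : e (algebraMap K[X] (RR K) p) = 0 := by
      rw [← IsLocalization.mk'_spec (RR K) p s, map_mul]
      rw [RingHom.mem_ker] at ha
      change e _ = 0 at ha
      rw [ha, zero_mul]
    rw [ev_alg, he, ← Polynomial.coeff_zero_eq_eval_zero] at h1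
    obtain ⟨p', rfl⟩ := X_dvd_iff.2 h1
    rw [Ideal.mem_span_singleton]
    refine ⟨IsLocalization.mk' (RR K) p' s, ?_⟩
    rw [uR, IsLocalization.mul_mk'_eq_mk'_of_mul]
  · rw [Ideal.span_singleton_le_iff_mem, RingHom.mem_ker]
    exact he

theorem prime_u : Prime (uR K) := by
  obtain ⟨e, he⟩ := exists_ev (0 : K) (by rw [zero_add]; exact one_ne_zero)
  have h1 := ker_ev e he
  have hd := dom (K := K)
  have h2 : (Ideal.span {uR K}).IsPrime := by
    rw [← h1]
    exact RingHom.ker_isPrime _
  have h0 : uR K ≠ 0 := by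
    intro h
    have : algebraMap K[X] (RR K) X = algebraMap K[X] (RR K) 0 := by
      rw [map_zero]
      exact h
    exact X_ne_zero (inj_alg this)
  exact (Ideal.span_singleton_prime h0).1 h2

theorem der_zero {M : Type u} [AddCommGroup M] [Module (RR K) M] [Module K M]
    [IsScalarTower K (RR K) M] (D : Derivation K (RR K) M) (h : D (uR K) = 0) : D = 0 := by
  have h1 : ∀ p : K[X], D (algebraMap K[X] (RR K) p) = 0 := by
    intro p
    induction p using Polynomial.induction_on' with
    | add p q hp hq => rw [map_add, map_add, hp, hq, add_zero]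
    | monomial n a =>
      rw [← C_mul_X_pow_eq_monomial, map_mul, map_pow]
      have e1 : algebraMap K[X] (RR K) (C a) = algebraMap K (RR K) a := rfl
      rw [e1, Derivation.leibniz, Derivation.leibniz_pow, Derivation.map_algebraMap]
      change _ • _ • _ • D (uR K) + _ = _
      rw [h, smul_zero, smul_zero, smul_zero, smul_zero, add_zero]
  ext a
  obtain ⟨p, s, rfl⟩ := IsLocalization.exists_mk'_eq (Submonoid.powers (X + 1 : K[X])) a
  have h2 := congrArg D (IsLocalization.mk'_spec (RR K) p s)
  rw [Derivation.leibniz, h1, h1, smul_zero, zero_add] at h2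
  have h3 : IsUnit (algebraMap K[X] (RR K) s) := IsLocalization.map_units (RR K) s
  obtain ⟨v, hv⟩ := h3
  have h4 : (↑v⁻¹ : RR K) • (algebraMap K[X] (RR K) s) • D (IsLocalization.mk' (RR K) p s) = 0 := by
    rw [h2, smul_zero]
  rw [smul_smul, ← hv, Units.inv_mul, one_smul] at h4
  rw [h4]
  rfl

theorem trans_uK [CharP K 2] (n : Fin 3) : Transcendental K (uK K n) := by
  have hx : Transcendental K (xK K) := by
    rw [xK]
    have h1 : Function.Injective (algebraMap K[X] (KK K)) := IsFractionRing.injective _ _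
    exact (transcendental_algebraMap_iff h1).2 (Polynomial.transcendental_X K)
  fin_cases n
  · exact hx
  · intro h
    apply hx
    have h1 : IsAlgebraic K (1 : KK K) := isAlgebraic_one
    have h2 := h.sub h1
    change IsAlgebraic K (xK K + 1 - 1) at h2
    rwa [add_sub_cancel_right] at h2
  · intro h
    apply hx
    have h2 := h.inv
    change IsAlgebraic K ((xK K)⁻¹)⁻¹ at h2
    rwa [inv_inv] at h2

theorem frac [CharP K 2] (n : Fin 3) (φ : RR K →+* KK K) (h1 : φ (uR K) = uK K n)
    (h2 : ∀ c : K, φ (algebraMap K _ c) = algebraMap K _ c) :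
    @IsFractionRing (RR K) _ (KK K) _ φ.toAlgebra := by
  let _ : Algebra (RR K) (KK K) := φ.toAlgebra
  have hφ : ∀ p : K[X], φ (algebraMap K[X] (RR K) p) = aeval (uK K n) p := by
    intro p
    induction p using Polynomial.induction_on' with
    | add p q hp hq => rw [map_add, map_add, hp, hq, map_add]
    | monomial m a =>
      rw [← C_mul_X_pow_eq_monomial, map_mul, map_mul, map_mul, map_pow, map_pow, map_pow,
        aeval_X, aeval_C]
      have e1 : algebraMap K[X] (RR K) (C a) = algebraMap K (RR K) a := rfl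
      rw [e1, h2]
      congr 2
  have hinj : Function.Injective φ := by
    rw [injective_iff_map_eq_zero]
    intro a ha
    obtain ⟨p, s, rfl⟩ := IsLocalization.exists_mk'_eq (Submonoid.powers (X + 1 : K[X])) a
    have h3 : φ (algebraMap K[X] (RR K) p) = 0 := by
      rw [← IsLocalization.mk'_spec (RR K) p s, map_mul, ha, zero_mul]
    rw [hφ] at h3
    have h4 : p = 0 := by
      by_contra hp
      exact trans_uK n ⟨p, hp, h3⟩
    rw [h4, IsLocalization.mk'_zero]
  have : FaithfulSMul (RR K) (KK K) := (faithfulSMul_iff_algebraMap_injective _ _).2 hinj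
  apply IsFractionRing.of_field
  intro z
  have hu : uK K n ∈ Subfield.closure (Set.range φ) :=
    Subfield.subset_closure ⟨uR K, h1⟩
  have hK : ∀ c : K, algebraMap K (KK K) c ∈ Subfield.closure (Set.range φ) := fun c =>
    Subfield.subset_closure ⟨_, h2 c⟩
  have hx : xK K ∈ Subfield.closure (Set.range φ) := by
    fin_cases n
    · exact hu
    · have h3 := Subfield.sub_mem _ hu (Subfield.one_mem _)
      change xK K + 1 - 1 ∈ _ at h3
      rwa [add_sub_cancel_right] at h3
    · have h3 := Subfield.inv_mem _ hu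
      change ((xK K)⁻¹)⁻¹ ∈ _ at h3
      rwa [inv_inv] at h3
  have hp : ∀ p : K[X], algebraMap K[X] (KK K) p ∈ Subfield.closure (Set.range φ) := by
    intro p
    induction p using Polynomial.induction_on' with
    | add p q hp hq => rw [map_add]; exact Subfield.add_mem _ hp hq
    | monomial m a =>
      rw [← C_mul_X_pow_eq_monomial, map_mul, map_pow]
      exact Subfield.mul_mem _ (hK a) (Subfield.pow_mem _ hx m)
  have hz : z ∈ Subfield.closure (Set.range φ) := by
    obtain ⟨a, b, -, rfl⟩ := IsFractionRing.div_surjective (A := K[X]) z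
    exact Subfield.div_mem _ (hp a) (hp b)
  rw [Subfield.mem_closure_iff] at hz
  obtain ⟨a, ha, b, hb, hab⟩ := hz
  have hr : Subring.closure (Set.range φ) = φ.range := by
    rw [← RingHom.coe_range, Subring.closure_eq]
  rw [hr] at ha hb
  obtain ⟨a', rfl⟩ := ha
  obtain ⟨b', rfl⟩ := hb
  exact ⟨a', b', hab.symm⟩

theorem RR_facts (K : Type u) [Field K] [IsAlgClosed K] [CharP K 2] :
    IsDomain (RR K) ∧ IsIntegrallyClosed (RR K) ∧ IsNoetherianRing (RR K) ∧
    (∃! e : RR K →ₐ[K] K, e (uR K) = 0) ∧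
    (∀ c : K, c ≠ 1 → ∃! e : RR K →ₐ[K] K, e (uR K) = c) ∧
    (∀ (n : Fin 3) (φ : RR K →+* KK K), φ (uR K) = uK K n →
      (∀ c : K, φ (algebraMap K _ c) = algebraMap K _ c) →
      @IsFractionRing (RR K) _ (KK K) _ φ.toAlgebra) ∧
    ∀ q ∈ ({uR K, uR K ^ 2 + uR K, uR K * wR K ^ 2} : Set (RR K)), Prime q ∧
      (∀ e : RR K →ₐ[K] K, e (uR K) = 0 → RingHom.ker e = Ideal.span {q}) ∧
      (∀ (M : Type u) [AddCommGroup M] [Module (RR K) M] [Module K M]
        [IsScalarTower K (RR K) M] (D : Derivation K (RR K) M), D q = 0 → D = 0) := by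
  have hev : ∀ c : K, c ≠ 1 → ∃! e : RR K →ₐ[K] K, e (uR K) = c := by
    intro c hc
    have h1 : c + 1 ≠ 0 := by
      intro h
      apply hc
      have h2 : (2 : K) = 0 := CharTwo.two_eq_zero
      linear_combination h - h2
    obtain ⟨e, he⟩ := exists_ev c h1
    exact ⟨e, he, fun e' he' => ev_uniq e' e (by rw [he, he'])⟩
  have h2R : (2 : RR K) = 0 := by
    have h2 : (2 : K) = 0 := CharTwo.two_eq_zero
    have := congrArg (algebraMap K (RR K)) h2
    rwa [map_ofNat, map_zero] at this
  have key : ∀ q ε : RR K, IsUnit ε → q = uR K * ε → (∀ (M : Type u) [AddCommGroup M]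
      [Module (RR K) M] [Module K M] [IsScalarTower K (RR K) M] (D : Derivation K (RR K) M),
      D q = 0 → D (uR K) = 0) → Prime q ∧
      (∀ e : RR K →ₐ[K] K, e (uR K) = 0 → RingHom.ker e = Ideal.span {q}) ∧
      (∀ (M : Type u) [AddCommGroup M] [Module (RR K) M] [Module K M]
        [IsScalarTower K (RR K) M] (D : Derivation K (RR K) M), D q = 0 → D = 0) := by
    intro q ε hε hq hD
    have ha : Associated (uR K) q := ⟨hε.unit, hq.symm⟩
    refine ⟨ha.prime prime_u, ?_, ?_⟩
    · intro e he
      have hd := dom (K := K)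
      rw [ker_ev e he]
      exact Ideal.span_singleton_eq_span_singleton.2 ha
    · intro M _ _ _ _ D hDq
      exact der_zero D (hD M D hDq)
  refine ⟨dom, intcl, noeth, hev 0 zero_ne_one, hev, frac, ?_⟩
  have hu1 : IsUnit (uR K + 1) := IsUnit.of_mul_eq_one _ uw
  have hw : IsUnit (wR K) := IsUnit.of_mul_eq_one (uR K + 1) (by rw [mul_comm]; exact uw)
  rintro q (rfl | rfl | rfl)
  · exact key _ 1 isUnit_one (by rw [mul_one]) (fun M _ _ _ _ D h => h)
  · refine key _ (uR K + 1) hu1 (by ring) ?_
    intro M _ _ _ _ D h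
    rw [map_add, Derivation.leibniz_pow] at h
    have h3 : (2 : ℕ) • uR K ^ (2 - 1) • D (uR K) = 0 := by
      rw [← Nat.cast_smul_eq_nsmul (RR K), Nat.cast_ofNat, h2R, zero_smul]
    rw [h3, zero_add] at h
    exact h
  · refine key _ (wR K ^ 2) (hw.pow 2) rfl ?_
    intro M _ _ _ _ D h
    rw [Derivation.leibniz, Derivation.leibniz_pow] at h
    have h3 : (2 : ℕ) • wR K ^ (2 - 1) • D (wR K) = 0 := by
      rw [← Nat.cast_smul_eq_nsmul (RR K), Nat.cast_ofNat, h2R, zero_smul]
    rw [h3, smul_zero, zero_add] at h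
    obtain ⟨v, hv⟩ := hw.pow 2
    have h4 : (↑v⁻¹ : RR K) • (wR K ^ 2) • D (uR K) = 0 := by rw [h, smul_zero]
    rwa [smul_smul, ← hv, Units.inv_mul, one_smul] at h4

end

end Pool.Agent.W417.MW
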