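import Pool.Agent.W417.MW.AS

/-! The biquadratic Artin-Schreier field with its group. -/

open Polynomial

set_option autoImplicit false

universe u

namespace Pool.Agent.W417.MW

open Pool.Agent.W513.Mod

section span

variable {K₀ L : Type u} [Field K₀] [Field L] [Algebra K₀ L]

/-- `1, y, y', y y'` span. -/
def Sp (K₀ : Type u) {L : Type u} [Field K₀] [Field L] [Algebra K₀ L] (y y' : L) : Prop :=
  ∀ z : L, ∃ c : Fin 4 → K₀, z = algebraMap K₀ L (c 0) +
    algebraMap K₀ L (c 1) * y + algebraMap K₀ L (c 2) * y' + algebraMap K₀ L (c 3) * (y * y')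

theorem Sp.swap {y y' : L} (h : Sp K₀ y y') : Sp K₀ y' y := by
  intro z
  obtain ⟨c, hc⟩ := h z
  refine ⟨![c 0, c 2, c 1, c 3], ?_⟩
  rw [hc]
  simp only [Matrix.cons_val]
  ring

theorem Sp.shear {y y' : L} (h : Sp K₀ y y') (h2 : (2 : L) = 0) {a : K₀}
    (hy : y ^ 2 + y = algebraMap K₀ L a) : Sp K₀ y (y + y') := by
  intro z
  obtain ⟨c, hc⟩ := h z
  refine ⟨![c 0 + c 3 * a, c 1 + c 2 + c 3, c 2, c 3], ?_⟩
  rw [hc]
  simp only [Matrix.cons_val, map_add, map_mul]
  rw [← hy]
  linear_combination (-(algebraMap K₀ L (c 2)) * y - (algebraMap K₀ L (c 3)) * y ^ 2 -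
    (algebraMap K₀ L (c 3)) * y) * h2

end span

theorem irr_AS {F : Type u} [Field F] [CharP F 2] (h : F) (hn : ∀ g : F, g ^ 2 + g ≠ h) :
    Irreducible (X ^ 2 + X + C h : F[X]) := by
  obtain ⟨h1, h2⟩ := monic_quad' h
  refine irreducible_of_degree_le_three_of_not_isRoot ?_ ?_
  · rw [h2]
    simp
  · intro x hx
    apply hn x
    have h3 : x ^ 2 + x + h = 0 := by
      have := hx
      simpa [IsRoot] using this
    have h4 : (2 : F) = 0 := CharTwo.two_eq_zero
    linear_combination h3 - h * h4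

theorem exists_field {K₀ : Type u} [Field K₀] [CharP K₀ 2] (h : Fin 3 → K₀)
    (hh : h 2 = h 0 + h 1) (hn : ∀ n g, g ^ 2 + g ≠ h n) :
    ∃ (L : Type u) (_ : Field L) (_ : Algebra K₀ L) (_ : CharP L 2) (y : Fin 3 → L)
      (t : P4 →* (L →ₐ[K₀] L)),
      (∀ n, y n ^ 2 + y n = algebraMap K₀ L (h n)) ∧
      (∀ g n, t g (y n) = y n + ZMod.castHom (dvd_refl 2) L (chi n g)) ∧
      ∀ m n, m ≠ n → ∀ z : L, ∃ c : Fin 4 → K₀, z = algebraMap K₀ L (c 0) +
        algebraMap K₀ L (c 1) * y m + algebraMap K₀ L (c 2) * y n +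
        algebraMap K₀ L (c 3) * (y m * y n) := by
  let p0 : K₀[X] := X ^ 2 + X + C (h 0)
  have : Fact (Irreducible p0) := ⟨irr_AS (h 0) (hn 0)⟩
  let L1 : Type u := AdjoinRoot p0
  let y0 : L1 := AdjoinRoot.root p0
  have hc1 : CharP L1 2 := charP_of_injective_algebraMap (algebraMap K₀ L1).injective 2
  have h2L1 : (2 : L1) = 0 := CharTwo.two_eq_zero
  have hy0 : y0 ^ 2 + y0 = algebraMap K₀ L1 (h 0) := by
    have h1 : aeval y0 p0 = 0 := by
      rw [aeval_def]
      exact AdjoinRoot.eval₂_root p0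
    have h3 : y0 ^ 2 + y0 + algebraMap K₀ L1 (h 0) = 0 := by
      simpa [p0] using h1
    linear_combination h3 - algebraMap K₀ L1 (h 0) * h2L1
  have rep1 : ∀ z : L1, ∃ a b : K₀, z = algebraMap K₀ L1 a + algebraMap K₀ L1 b * y0 :=
    fun z => rep p0 (monic_quad' (h 0)).1 (monic_quad' (h 0)).2 z
  have lin1 : ∀ a b : K₀, algebraMap K₀ L1 a + algebraMap K₀ L1 b * y0 = 0 → a = 0 ∧ b = 0 := by
    intro a b hab
    have hb : b = 0 := by
      by_contra hb
      have hb' : algebraMap K₀ L1 b ≠ 0 := (_root_.map_ne_zero _).2 hb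
      have h3 : y0 = algebraMap K₀ L1 (-(a / b)) := by
        have h5 : algebraMap K₀ L1 b * y0 = -(algebraMap K₀ L1 a) := by linear_combination hab
        rw [map_neg, map_div₀]
        apply mul_left_cancel₀ hb'
        rw [h5, mul_neg, mul_div_cancel₀ _ hb']
      apply hn 0 (-(a / b))
      apply (algebraMap K₀ L1).injective
      rw [map_add, map_pow, ← h3]
      exact hy0
    subst hb
    rw [map_zero, zero_mul, add_zero] at hab
    exact ⟨(algebraMap K₀ L1).injective (by rw [hab, map_zero]), rfl⟩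
  let p1 : L1[X] := X ^ 2 + X + C (algebraMap K₀ L1 (h 1))
  have hn1 : ∀ g : L1, g ^ 2 + g ≠ algebraMap K₀ L1 (h 1) := by
    intro g hg
    obtain ⟨γ, δ, rfl⟩ := rep1 g
    obtain ⟨e1, e2⟩ := lin1 (γ ^ 2 + γ + δ ^ 2 * h 0 - h 1) (δ ^ 2 + δ) (by
      simp only [map_add, map_sub, map_mul, map_pow]
      linear_combination hg - (algebraMap K₀ L1 δ) ^ 2 * hy0 +
        ((algebraMap K₀ L1 δ) ^ 2 * y0 - algebraMap K₀ L1 γ * algebraMap K₀ L1 δ * y0) * h2L1)
    have e3 : δ * (δ + 1) = 0 := by linear_combination e2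
    rcases mul_eq_zero.1 e3 with e4 | e4
    · subst e4
      exact hn 1 γ (by linear_combination e1)
    · have h2K : (2 : K₀) = 0 := CharTwo.two_eq_zero
      have e5 : δ ^ 2 = 1 := by linear_combination (δ - 1) * e4
      exact hn 2 γ (by
        rw [hh]
        rw [e5] at e1
        linear_combination e1 - h 0 * h2K)
  have : Fact (Irreducible p1) := ⟨irr_AS _ hn1⟩
  let L : Type u := AdjoinRoot p1
  let iA : Algebra K₀ L := inferInstance
  have hT : IsScalarTower K₀ L1 L := inferInstance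
  let y1 : L := AdjoinRoot.root p1
  let z0 : L := algebraMap L1 L y0
  have hcL : CharP L 2 := charP_of_injective_algebraMap (algebraMap L1 L).injective 2
  have h2L : (2 : L) = 0 := CharTwo.two_eq_zero
  have hz0 : z0 ^ 2 + z0 = algebraMap K₀ L (h 0) := by
    rw [IsScalarTower.algebraMap_apply K₀ L1 L, ← hy0, map_add, map_pow]
  have hy1 : y1 ^ 2 + y1 = algebraMap K₀ L (h 1) := by
    have h1 : aeval y1 p1 = 0 := by
      rw [aeval_def]
      exact AdjoinRoot.eval₂_root p1
    have h3 : y1 ^ 2 + y1 + algebraMap L1 L (algebraMap K₀ L1 (h 1)) = 0 := by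
      simpa [p1] using h1
    rw [← IsScalarTower.algebraMap_apply K₀ L1 L] at h3
    linear_combination h3 - algebraMap K₀ L (h 1) * h2L
  have hSp : Sp K₀ z0 y1 := by
    intro z
    obtain ⟨a, b, hab⟩ := rep p1 (monic_quad' _).1 (monic_quad' _).2 z
    obtain ⟨a0, a1, ha⟩ := rep1 a
    obtain ⟨b0, b1, hb⟩ := rep1 b
    refine ⟨![a0, a1, b0, b1], ?_⟩
    simp only [Matrix.cons_val]
    have h3 : z = algebraMap L1 L a + algebraMap L1 L b * y1 := hab
    rw [h3, ha, hb, map_add, map_add, map_mul, map_mul, ← IsScalarTower.algebraMap_apply,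
      ← IsScalarTower.algebraMap_apply, ← IsScalarTower.algebraMap_apply,
      ← IsScalarTower.algebraMap_apply]
    ring
  -- endomorphisms
  have hext : ∀ f g : L →ₐ[K₀] L, f z0 = g z0 → f y1 = g y1 → f = g := by
    intro f g h3 h4
    refine AlgHom.ext fun z => ?_
    obtain ⟨c, hc⟩ := hSp z
    rw [hc]
    simp only [map_add, map_mul, AlgHom.commutes, h3, h4]
  have hz2 : ∀ a : ZMod 2, (ZMod.castHom (dvd_refl 2) L a) ^ 2 +
      ZMod.castHom (dvd_refl 2) L a = 0 := by
    intro a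
    rw [← map_pow, ← map_add]
    have : a ^ 2 + a = 0 := by
      revert a
      decide
    rw [this, map_zero]
  have hex : ∀ a b : ZMod 2, ∃ f : L →ₐ[K₀] L, f z0 = z0 + ZMod.castHom (dvd_refl 2) L a ∧
      f y1 = y1 + ZMod.castHom (dvd_refl 2) L b := by
    intro a b
    let f1 : L1 →ₐ[K₀] L := AdjoinRoot.liftAlgHom p0 (Algebra.ofId K₀ L)
      (z0 + ZMod.castHom (dvd_refl 2) L a) (by
        simp only [p0, eval₂_add, eval₂_pow, eval₂_X, eval₂_C]
        change (z0 + ZMod.castHom (dvd_refl 2) L a) ^ 2 + (z0 + ZMod.castHom (dvd_refl 2) L a) +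
          algebraMap K₀ L (h 0) = 0
        linear_combination hz0 + hz2 a + (z0 * ZMod.castHom (dvd_refl 2) L a +
          algebraMap K₀ L (h 0)) * h2L)
    have hf1 : f1 y0 = z0 + ZMod.castHom (dvd_refl 2) L a := AdjoinRoot.liftAlgHom_root _ _ _ _
    let f : L →ₐ[K₀] L := AdjoinRoot.liftAlgHom p1 f1
      (y1 + ZMod.castHom (dvd_refl 2) L b) (by
        simp only [p1, eval₂_add, eval₂_pow, eval₂_X, eval₂_C]
        change (y1 + ZMod.castHom (dvd_refl 2) L b) ^ 2 + (y1 + ZMod.castHom (dvd_refl 2) L b) +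
          f1 (algebraMap K₀ L1 (h 1)) = 0
        rw [f1.commutes]
        linear_combination hy1 + hz2 b + (y1 * ZMod.castHom (dvd_refl 2) L b +
          algebraMap K₀ L (h 1)) * h2L)
    refine ⟨f, ?_, AdjoinRoot.liftAlgHom_root _ _ _ _⟩
    exact (AdjoinRoot.liftAlgHom_of p1 f1 _ _ y0).trans hf1
  choose T hT0 hT1 using hex
  let t : P4 →* (L →ₐ[K₀] L) :=
    { toFun := fun g => T g.toAdd.1 g.toAdd.2
      map_one' := by
        apply hext
        · rw [hT0]
          change z0 + ZMod.castHom (dvd_refl 2) L 0 = z0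
          rw [map_zero, add_zero]
        · rw [hT1]
          change y1 + ZMod.castHom (dvd_refl 2) L 0 = y1
          rw [map_zero, add_zero]
      map_mul' := by
        intro g g'
        have hcc : ∀ (f : L →ₐ[K₀] L) (a : ZMod 2), f (ZMod.castHom (dvd_refl 2) L a) =
            ZMod.castHom (dvd_refl 2) L a := by
          intro f a
          exact congrFun (congrArg DFunLike.coe (Subsingleton.elim
            ((f : L →+* L).comp (ZMod.castHom (dvd_refl 2) L)) (ZMod.castHom (dvd_refl 2) L))) a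
        apply hext
        · rw [hT0, AlgHom.mul_apply, hT0, map_add, hT0, hcc]
          change z0 + ZMod.castHom (dvd_refl 2) L (g.toAdd.1 + g'.toAdd.1) = _
          rw [map_add]
          ring
        · rw [hT1, AlgHom.mul_apply, hT1, map_add, hT1, hcc]
          change y1 + ZMod.castHom (dvd_refl 2) L (g.toAdd.2 + g'.toAdd.2) = _
          rw [map_add]
          ring }
  have S01 : Sp K₀ z0 y1 := hSp
  have S10 : Sp K₀ y1 z0 := hSp.swap
  have S02 : Sp K₀ z0 (z0 + y1) := S01.shear h2L hz0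
  have S12 : Sp K₀ y1 (z0 + y1) := by
    have := S10.shear h2L hy1
    rwa [add_comm] at this
  refine ⟨L, inferInstance, iA, hcL, ![z0, y1, z0 + y1], t, ?_, ?_, ?_⟩
  · intro n
    fin_cases n
    · exact hz0
    · exact hy1
    · change (z0 + y1) ^ 2 + (z0 + y1) = algebraMap K₀ L (h 2)
      rw [hh, map_add]
      linear_combination hz0 + hy1 + z0 * y1 * h2L
  · intro g n
    fin_cases n
    · exact hT0 _ _
    · exact hT1 _ _
    · change T g.toAdd.1 g.toAdd.2 (z0 + y1) = z0 + y1 + ZMod.castHom (dvd_refl 2) L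
        (g.toAdd.1 + g.toAdd.2)
      rw [map_add, hT0, hT1, map_add]
      ring
  · intro m n hmn
    fin_cases m <;> fin_cases n
    · exact absurd rfl hmn
    · exact S01
    · exact S02
    · exact S10
    · exact absurd rfl hmn
    · exact S12
    · exact S02.swap
    · exact S12.swap
    · exact absurd rfl hmn

end Pool.Agent.W417.MW
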